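import Pool.Agent.Helper93.L2.Phase

/-!
# LN2-R16c (MP_730da0_ag): the branches are flat at `s`

`phi z = (z - s) g z` near `s` with `g s ≠ 0`. The phase identity says that
`conj (phi z) * h z` is a real number `≥ 0`, where `h z = phi (σ z) (σ' z) ^ 2`. For `z = s + t` with
`t` real this is `t * (conj (g z) * h z)`, so the limit `conj (g s) * h s` is real, `≥ 0` (`t > 0`)
and `≤ 0` (`t < 0`), hence `0`.
-/

namespace Pool.Agent.Helper16.L2

open Pool.Agent.Helper93.L2 Filter Topology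

/-- a continuous function with `0 ≤ t * re G (s + t)` and `t * im G (s + t) = 0` vanishes at `s` -/
theorem eq_zero_of_sides {G : ℂ → ℂ} {s : ℂ} (hG : ContinuousAt G s) {r : ℝ} (hr : 0 < r)
    (h : ∀ t : ℝ, t ≠ 0 → |t| < r → 0 ≤ t * (G (s + t)).re ∧ t * (G (s + t)).im = 0) :
    G s = 0 := by
  have hlim : Tendsto (fun t : ℝ => G (s + t)) (𝓝 0) (𝓝 (G s)) := by
    have h1 : Tendsto (fun t : ℝ => s + (t : ℂ)) (𝓝 0) (𝓝 s) := by
      have : ContinuousAt (fun t : ℝ => s + (t : ℂ)) 0 := by fun_prop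
      have h2 := this.tendsto
      simpa using h2
    exact hG.tendsto.comp h1
  have hre : Tendsto (fun t : ℝ => (G (s + t)).re) (𝓝 0) (𝓝 (G s).re) :=
    (Complex.continuous_re.tendsto _).comp hlim
  have him : Tendsto (fun t : ℝ => (G (s + t)).im) (𝓝 0) (𝓝 (G s).im) :=
    (Complex.continuous_im.tendsto _).comp hlim
  have hball : ∀ᶠ t : ℝ in 𝓝 0, |t| < r := by
    filter_upwards [Metric.ball_mem_nhds (0 : ℝ) hr] with t ht
    simpa using ht
  have h1 : 0 ≤ (G s).re := by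
    refine ge_of_tendsto (hre.mono_left (nhdsWithin_le_nhds (s := Set.Ioi 0))) ?_
    filter_upwards [self_mem_nhdsWithin, hball.filter_mono nhdsWithin_le_nhds] with t ht ht'
    have ht0 : (0 : ℝ) < t := ht
    have := (h t ht0.ne' ht').1
    exact nonneg_of_mul_nonneg_right this ht0
  have h2 : (G s).re ≤ 0 := by
    refine le_of_tendsto (hre.mono_left (nhdsWithin_le_nhds (s := Set.Iio 0))) ?_
    filter_upwards [self_mem_nhdsWithin, hball.filter_mono nhdsWithin_le_nhds] with t ht ht'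
    have ht0 : t < 0 := ht
    have := (h t ht0.ne ht').1
    by_contra hc
    rw [not_le] at hc
    have := mul_neg_of_neg_of_pos ht0 hc
    linarith
  have h3 : (G s).im = 0 := by
    have h4 : Tendsto (fun _ : ℝ => (0 : ℝ)) (𝓝[>] 0) (𝓝 (G s).im) := by
      refine (him.mono_left (nhdsWithin_le_nhds (s := Set.Ioi 0))).congr' ?_
      filter_upwards [self_mem_nhdsWithin, hball.filter_mono nhdsWithin_le_nhds] with t ht ht'
      have ht0 : (0 : ℝ) < t := ht
      have := (h t ht0.ne' ht').2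
      exact (mul_eq_zero.1 this).resolve_left ht0.ne'
    exact tendsto_nhds_unique h4 tendsto_const_nhds
  exact Complex.ext (le_antisymm h2 h1) h3

theorem continuousAt_phi (p : Fin 4 → ℂ) (s w : ℂ) (hw : ∀ j, w ≠ p j) :
    ContinuousAt (phi p s) w := by
  unfold phi
  refine ContinuousAt.div (by fun_prop) (by fun_prop) ?_
  exact Finset.prod_ne_zero_iff.2 fun i _ => sub_ne_zero.2 (hw i)

theorem flat_of_phase (P : Finset ℂ) (N : ℕ) (W : ℂ → Set ℂ) (a : ℂ → ℂ → ℂ)
    (hB : Branches P N W a) (p : Fin 4 → ℂ) (hpP : ∀ j, p j ∈ P) (s : ℂ) (hs : s ∉ P)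
    (av : ∀ z ∉ P, ∀ w ∈ W z, ∀ j, w ≠ p j) (av' : ∀ z ∉ P, ∀ w ∈ W z, w ≠ z)
    (h : ∀ z ∉ P, z ≠ s → ∀ w ∈ W z, (starRingEnd ℂ) (phi p s z) * (phi p s w * a z w ^ 2) =
      ((‖phi p s z‖ * (‖phi p s w‖ * ‖a z w‖ ^ 2) : ℝ) : ℂ)) : ∀ w ∈ W s, a s w = 0 := by
  intro w hw
  obtain ⟨r, hr, hP, σ, h1, h2, h3⟩ := hB s hs
  have hself : s ∈ Metric.ball s r := Metric.mem_ball_self hr
  have hnhds : Metric.ball s r ∈ 𝓝 s := Metric.ball_mem_nhds _ hr
  obtain ⟨hinj, hW⟩ := h2 s hself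
  have hw' : w ∈ Set.range fun j => σ j s := hW ▸ hw
  obtain ⟨j, rfl⟩ := hw'
  have hsp : ∀ i, s ≠ p i := fun i hi => hs (hi ▸ hpP i)
  -- the function `g`
  set g : ℂ → ℂ := fun z => 1 / ∏ i, (z - p i) with hg
  have hgs : g s ≠ 0 := by
    rw [hg]
    exact div_ne_zero one_ne_zero
      (Finset.prod_ne_zero_iff.2 fun i _ => sub_ne_zero.2 (hsp i))
  have hphi : ∀ z, phi p s z = (z - s) * g z := by
    intro z
    simp only [hg, phi]
    rw [mul_one_div]
  have hgc : ContinuousAt g s := by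
    rw [hg]
    refine ContinuousAt.div continuousAt_const ?_
      (Finset.prod_ne_zero_iff.2 fun i _ => sub_ne_zero.2 (hsp i))
    exact (by fun_prop : Continuous fun z : ℂ => ∏ i, (z - p i)).continuousAt
  have hc1 : ContinuousAt (σ j) s := ((h1 j).differentiableAt hnhds).continuousAt
  have hc2 : ContinuousAt (deriv (σ j)) s :=
    ((((h1 j).deriv Metric.isOpen_ball)).differentiableAt hnhds).continuousAt
  have hc3 : ContinuousAt (fun z => phi p s (σ j z)) s :=
    ContinuousAt.comp (g := phi p s) (continuousAt_phi p s (σ j s) (av s hs _ hw)) hc1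
  have hG : ContinuousAt (fun z => (starRingEnd ℂ) (g z) *
      (phi p s (σ j z) * deriv (σ j) z ^ 2)) s :=
    (Complex.continuous_conj.continuousAt.comp hgc).mul (hc3.mul (hc2.pow 2))
  have hz : (starRingEnd ℂ) (g s) * (phi p s (σ j s) * deriv (σ j) s ^ 2) = 0 := by
    refine eq_zero_of_sides (G := fun z => (starRingEnd ℂ) (g z) *
      (phi p s (σ j z) * deriv (σ j) z ^ 2)) hG hr ?_
    intro t ht0 htr
    have hmem : s + (t : ℂ) ∈ Metric.ball s r := by
      rw [Metric.mem_ball, dist_eq_norm, add_sub_cancel_left, Complex.norm_real]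
      exact htr
    have hne : s + (t : ℂ) ≠ s := by
      intro hcon
      rw [add_eq_left] at hcon
      exact ht0 (by exact_mod_cast hcon)
    have hWz := (h2 _ hmem).2
    have h4 := h _ (hP _ hmem) hne (σ j (s + t)) (by rw [hWz]; exact ⟨j, rfl⟩)
    rw [h3 _ hmem j, hphi (s + t), add_sub_cancel_left, map_mul, Complex.conj_ofReal, mul_assoc] at h4
    have h5 := congrArg Complex.re h4
    have h6 := congrArg Complex.im h4
    rw [Complex.re_ofReal_mul, Complex.ofReal_re] at h5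
    rw [Complex.im_ofReal_mul, Complex.ofReal_im] at h6
    refine ⟨?_, h6⟩
    show 0 ≤ t * ((starRingEnd ℂ) (g (s + t)) *
      (phi p s (σ j (s + t)) * deriv (σ j) (s + t) ^ 2)).re
    rw [h5]
    positivity
  have hgs' : (starRingEnd ℂ) (g s) ≠ 0 := by
    rw [Ne, map_eq_zero]
    exact hgs
  have hw0 : phi p s (σ j s) ≠ 0 := by
    unfold phi
    refine div_ne_zero (sub_ne_zero.2 (av' s hs _ hw)) ?_
    exact Finset.prod_ne_zero_iff.2 fun i _ => sub_ne_zero.2 (av s hs _ hw i)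
  have h7 : deriv (σ j) s ^ 2 = 0 :=
    (mul_eq_zero.1 ((mul_eq_zero.1 hz).resolve_left hgs')).resolve_left hw0
  show a s (σ j s) = 0
  rw [h3 s hself j]
  exact pow_eq_zero_iff (two_ne_zero) |>.1 h7

end Pool.Agent.Helper16.L2
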